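import Pool.Agent.K1H30.ES.Stm3
import Pool.Agent.K1H38.ES.Van

/-! Cancellation of a function not vanishing at the point; the number of conditions for the
vanishing on fibres. -/

set_option autoImplicit false

namespace Pool.Agent.K1H69.ES

open MvPolynomial Pool.Agent.K1H30.ES Pool.Agent.K1H38.ES

theorem vanc_aux (K : Type) [Field K] (t : K) (P : Fin 3 → K) (c : P3 K) (hc : eval P c ≠ 0)
    (k : ℕ) : ∀ H : P3 K, Van t P k (c * H) → Van t P k H := by
  induction k with
  | zero => intro H _ a b hab; omega
  | succ k ih =>
    intro H h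
    have h' := (van_succ t P k (c * H)).1 h
    have hH : Van t P k H := ih H (Van.mono h (by omega))
    have key : ∀ D : Derivation K (P3 K) (P3 K), Van t P k (D (c * H)) → Van t P k (D H) := by
      intro D h2
      apply ih
      rw [Derivation.leibniz, smul_eq_mul, smul_eq_mul] at h2
      have h3 : Van t P k (H * D c) :=
        van_mul t P k k 0 H (D c) rfl hH (fun a b hab => by omega)
      have h4 := Van.add h2 (Van.smul (-1) h3)
      have h5 : c * D H + H * D c + (-1 : K) • (H * D c) = c * D H := by
        rw [neg_smul, one_smul]; ring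
      rwa [h5] at h4
    rw [van_succ]
    refine ⟨?_, key _ h'.2.1, key _ h'.2.2⟩
    have h0 := h'.1
    rw [map_mul] at h0
    exact (mul_eq_zero.1 h0).resolve_left hc

theorem t_VANC : S_VANC := fun K _ t P k c H hc h => vanc_aux K t P c hc k H h

section CND

variable {K : Type} [Field K]

/-- restriction to the fibre over `(x, y)` -/
noncomputable def phi (x y : K) : P3 K →ₐ[K] Polynomial K :=
  aeval ![Polynomial.C x, Polynomial.C y, Polynomial.X]

theorem phi_eval (x y z : K) (g : P3 K) :
    Polynomial.eval z (phi x y g) = eval ![x, y, z] g := by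
  have h : (Polynomial.aeval z : Polynomial K →ₐ[K] K).comp (phi x y) =
      (aeval ![x, y, z] : P3 K →ₐ[K] K) := by
    apply MvPolynomial.algHom_ext
    intro i
    fin_cases i <;> simp [phi]
  have h1 := congrArg (fun f : P3 K →ₐ[K] K => f g) h
  simp only [AlgHom.comp_apply] at h1
  rw [Polynomial.coe_aeval_eq_eval] at h1
  rw [h1, MvPolynomial.aeval_eq_eval]

theorem phi_mem (x y : K) (A B a : ℕ) (e : ℤ) (g : P3 K) (hg : g ∈ Cls K A B a e) :
    phi x y g ∈ Polynomial.degreeLE K a := by
  have h : Cls K A B a e ≤ (Polynomial.degreeLE K a).comap (phi x y).toLinearMap := by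
    unfold Cls
    rw [Submodule.span_le]
    rintro _ ⟨m, hm, rfl⟩
    simp only [Submodule.comap_coe, Set.mem_preimage, SetLike.mem_coe, AlgHom.toLinearMap_apply]
    rw [Polynomial.mem_degreeLE]
    have h1 : phi x y (mn m) = Polynomial.C (x ^ m.1 * y ^ m.2.1) * Polynomial.X ^ m.2.2 := by
      simp [phi, mn]
    rw [h1]
    refine (Polynomial.degree_C_mul_X_pow_le _ _).trans ?_
    exact_mod_cast hm.2.1
  exact h hg

/-- the coefficients on the fibres -/
noncomputable def th {k : ℕ} (p : Fin k → K × K) (a : ℕ) : P3 K →ₗ[K] (Fin k → Fin (a + 1) → K) :=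
  LinearMap.pi fun i => LinearMap.pi fun j =>
    (Polynomial.lcoeff K (j : ℕ)) ∘ₗ (phi (p i).1 (p i).2).toLinearMap

end CND

theorem t_CND : S_CND := by
  intro K _ A B a k e p
  by_cases hfin : FiniteDimensional K (Cls K A B a e)
  · refine ⟨(LinearMap.ker ((th p a).domRestrict (Cls K A B a e))).map (Cls K A B a e).subtype,
      ?_, ?_, ?_⟩
    · exact Submodule.map_subtype_le _ _
    · rintro _ ⟨g, hg, rfl⟩ i z
      have hg' : th p a (g : P3 K) = 0 := hg
      have h0 : phi (p i).1 (p i).2 (g : P3 K) = 0 := by
        have h1 := phi_mem (p i).1 (p i).2 A B a e g g.2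
        rw [Polynomial.mem_degreeLE] at h1
        ext j
        rw [Polynomial.coeff_zero]
        by_cases hj : j ≤ a
        · have h2 := congrFun (congrFun hg' i) ⟨j, by omega⟩
          simpa [th] using h2
        · exact Polynomial.coeff_eq_zero_of_degree_lt
            (h1.trans_lt (by exact_mod_cast (not_le.1 hj)))
      have h3 := phi_eval (p i).1 (p i).2 z (g : P3 K)
      rw [h0, Polynomial.eval_zero] at h3
      exact h3.symm
    · rw [Submodule.finrank_map_subtype_eq]
      have h1 := LinearMap.finrank_range_add_finrank_ker ((th p a).domRestrict (Cls K A B a e))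
      have h2 : Module.finrank K (LinearMap.range ((th p a).domRestrict (Cls K A B a e))) ≤
          k * (a + 1) := by
        refine (Submodule.finrank_le _).trans ?_
        rw [Module.finrank_pi_fintype]
        simp
      omega
  · refine ⟨⊥, bot_le, ?_, ?_⟩
    · intro g hg i z
      rw [(Submodule.mem_bot K).1 hg, map_zero]
    · rw [Module.finrank_of_not_finite hfin]
      exact Nat.zero_le _

end Pool.Agent.K1H69.ES
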